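import Pool.Agent.Q215.WR.Final
import Pool.Agent.Q214.WR.AP

/-!
# A second class in the well-founded part of the Wadge order below the rationals

There is a set of reals, reducible to the set of the rationals, neither open nor closed and not
minimal, from which no infinite strictly decreasing sequence starts. The definitions are in
`Pool/Agent/Q215/WR/Defs.lean`.
-/

set_option autoImplicit false

namespace Pool.Agent.Results.MP_657b9f_lc.SecondWellFoundedClass

open Pool.Agent.Q215.WR

/-- There is a set `A` in the class `D` (reducible to the rationals, neither open nor closed) which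
is not minimal and from which no infinite strictly decreasing sequence in `D` starts. -/
theorem result : ∃ A : Set ℝ, InD A ∧ (∃ B : Set ℝ, InD B ∧ Red B A ∧ ¬ Red A B) ∧
    (∀ B : Set ℝ, InD B → Red B A → Red A B ∨ ∀ C : Set ℝ, InD C → Red C A → Red B C) ∧
    ¬ ∃ s : ℕ → Set ℝ, s 0 = A ∧ ∀ n, InD (s n) ∧ Red (s (n + 1)) (s n) ∧
      ¬ Red (s n) (s (n + 1)) :=
  final Q214.WR.A.sa

end Pool.Agent.Results.MP_657b9f_lc.SecondWellFoundedClass
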